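import Pool.Agent.N303.LS.Stm3
import Pool.Agent.N933.LS.YH

/-!
# LM/YOU: Young's inequality for the local energy (helper287, after helper933's LS/YH)
-/

set_option autoImplicit false

namespace Pool.Agent.N287.LS

open MeasureTheory Pool.Agent.N303.LS Pool.Agent.N933.LS
open scoped ENNReal

theorem t_you : Pool.Agent.N303.LS.S_YOU := by
  intro d M hd p hp
  set T : ℝ≥0∞ := ∫⁻ x : E d, ENNReal.ofReal (W M x) with hT
  have hTf : T < ⊤ := fin_W hd
  refine ⟨(T ^ (p / 2)).toReal + 1, by positivity, ?_⟩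
  intro g
  have hCle : T ^ (p / 2) ≤ ENNReal.ofReal ((T ^ (p / 2)).toReal + 1) := by
    have h1 : T ^ (p / 2) ≠ ⊤ := by
      apply ENNReal.rpow_ne_top_of_nonneg _ hTf.ne
      linarith
    calc T ^ (p / 2) = ENNReal.ofReal ((T ^ (p / 2)).toReal) := (ENNReal.ofReal_toReal h1).symm
      _ ≤ _ := ENNReal.ofReal_le_ofReal (by linarith)
  refine le_trans ?_ (mul_le_mul_left hCle _)
  -- the exponents
  set a : ℝ := p / 2 with ha
  have ha1 : 1 ≤ a := by rw [ha]; linarith
  have ha0 : 0 < a := by linarith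
  have ham : 0 ≤ a - 1 := by linarith
  have hgc : Continuous (fun x : E d => ‖g x‖ₑ) := g.continuous.enorm
  have hwm : Measurable (fun q : E d × E d => ENNReal.ofReal (W M (q.2 - q.1))) := by
    apply Measurable.ennreal_ofReal
    exact ((cont_W M).comp (by fun_prop)).measurable
  have hjoint : ∀ s : ℝ, Measurable (fun q : E d × E d => ‖g q.2‖ₑ ^ s * ENNReal.ofReal (W M (q.2 - q.1))) := by
    intro s
    refine Measurable.mul ?_ hwm
    exact (hgc.measurable.comp measurable_snd).pow_const s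
  -- pointwise bound
  have hpt : ∀ x : E d, nrg M g x ^ a ≤
      T ^ (a - 1) * ∫⁻ y : E d, ‖g y‖ₑ ^ p * ENNReal.ofReal (W M (y - x)) := by
    intro x
    rcases ha1.eq_or_lt with ha2 | ha2
    · rw [← ha2, sub_self, ENNReal.rpow_zero, one_mul, ENNReal.rpow_one]
      have hp2 : p = 2 := by rw [ha] at ha2; linarith
      rw [hp2]
      exact le_rfl
    set b : ℝ := a / (a - 1) with hb
    have hab : a.HolderConjugate b := Real.HolderConjugate.conjExponent ha2
    have ham' : 0 < a - 1 := by linarith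
    have hb0 : 0 < b := by rw [hb]; positivity
    have hw1 : ∀ y : E d, 0 < W M (y - x) := by
      intro y
      unfold W
      positivity
    have hwx : Measurable (fun y : E d => ENNReal.ofReal (W M (y - x))) := by
      apply Measurable.ennreal_ofReal
      exact ((cont_W M).comp (by fun_prop)).measurable
    have h1 := ENNReal.lintegral_mul_le_Lp_mul_Lq (volume : Measure (E d)) hab
      (f := fun y => ‖g y‖ₑ ^ (2 : ℝ) * ENNReal.ofReal (W M (y - x)) ^ (1 / a))
      (g := fun y => ENNReal.ofReal (W M (y - x)) ^ (1 / b))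
      (((hgc.measurable.pow_const 2).mul (hwx.pow_const _)).aemeasurable)
      ((hwx.pow_const _).aemeasurable)
    have e1 : ∫⁻ y : E d, ((fun y : E d => ‖g y‖ₑ ^ (2 : ℝ) * ENNReal.ofReal (W M (y - x)) ^ (1 / a)) *
        (fun y : E d => ENNReal.ofReal (W M (y - x)) ^ (1 / b)) : E d → ℝ≥0∞) y = nrg M g x := by
      unfold nrg
      refine lintegral_congr fun y => ?_
      simp only [Pi.mul_apply]
      rw [mul_assoc, ← ENNReal.rpow_add _ _ (by simpa using hw1 y) ENNReal.ofReal_ne_top]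
      have : 1 / a + 1 / b = 1 := by
        have := hab.inv_add_inv_eq_one
        simpa [one_div] using this
      rw [this, ENNReal.rpow_one]
    have e2 : ∀ y : E d, (‖g y‖ₑ ^ (2 : ℝ) * ENNReal.ofReal (W M (y - x)) ^ (1 / a)) ^ a =
        ‖g y‖ₑ ^ p * ENNReal.ofReal (W M (y - x)) := by
      intro y
      rw [ENNReal.mul_rpow_of_nonneg _ _ ha0.le, ← ENNReal.rpow_mul, ← ENNReal.rpow_mul]
      congr 1
      · congr 1
        rw [ha]; ring
      · rw [one_div, inv_mul_cancel₀ ha0.ne', ENNReal.rpow_one]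
    have e3 : ∀ y : E d, (ENNReal.ofReal (W M (y - x)) ^ (1 / b)) ^ b = ENNReal.ofReal (W M (y - x)) := by
      intro y
      rw [← ENNReal.rpow_mul, one_div, inv_mul_cancel₀ hb0.ne', ENNReal.rpow_one]
    rw [e1] at h1
    simp only [e2, e3] at h1
    rw [lintegral_sub_right_eq_self (fun y : E d => ENNReal.ofReal (W M y)) x, ← hT] at h1
    calc nrg M g x ^ a ≤ ((∫⁻ y : E d, ‖g y‖ₑ ^ p * ENNReal.ofReal (W M (y - x))) ^ (1 / a) *
          T ^ (1 / b)) ^ a := ENNReal.rpow_le_rpow h1 ha0.le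
      _ = T ^ (a - 1) * ∫⁻ y : E d, ‖g y‖ₑ ^ p * ENNReal.ofReal (W M (y - x)) := by
          rw [ENNReal.mul_rpow_of_nonneg _ _ ha0.le, ← ENNReal.rpow_mul, ← ENNReal.rpow_mul,
            mul_comm]
          congr 1
          · congr 1
            rw [hb]; field_simp
          · rw [one_div, inv_mul_cancel₀ ha0.ne', ENNReal.rpow_one]
  -- integrate
  calc ∫⁻ x : E d, nrg M g x ^ a ≤
      ∫⁻ x : E d, T ^ (a - 1) * ∫⁻ y : E d, ‖g y‖ₑ ^ p * ENNReal.ofReal (W M (y - x)) :=
        lintegral_mono hpt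
    _ = T ^ (a - 1) * ∫⁻ x : E d, ∫⁻ y : E d, ‖g y‖ₑ ^ p * ENNReal.ofReal (W M (y - x)) := by
        rw [lintegral_const_mul _ (hjoint p).lintegral_prod_right']
    _ = T ^ (a - 1) * ∫⁻ y : E d, ∫⁻ x : E d, ‖g y‖ₑ ^ p * ENNReal.ofReal (W M (y - x)) := by
        rw [lintegral_lintegral_swap (hjoint p).aemeasurable]
    _ = T ^ (a - 1) * ∫⁻ y : E d, ‖g y‖ₑ ^ p * T := by
        congr 1
        refine lintegral_congr fun y => ?_
        rw [lintegral_const_mul _ (by
          apply Measurable.ennreal_ofReal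
          exact ((cont_W M).comp (by fun_prop)).measurable)]
        rw [lintegral_sub_left_eq_self (fun y : E d => ENNReal.ofReal (W M y)) y]
    _ = T ^ (a - 1) * ((∫⁻ y : E d, ‖g y‖ₑ ^ p) * T) := by
        rw [lintegral_mul_const _ (hgc.measurable.pow_const p)]
    _ = T ^ a * ∫⁻ x : E d, ‖g x‖ₑ ^ p := by
        have : T ^ a = T ^ (a - 1) * T := by
          have h := ENNReal.rpow_add_of_nonneg (x := T) (a - 1) 1 ham zero_le_one
          rw [ENNReal.rpow_one] at h
          rw [← h]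
          congr 1; ring
        rw [this]
        ring

end Pool.Agent.N287.LS
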